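import Pool.Agent.TH130.CI.Sat

/-!
A superpolynomial lower bound for the degree of a subscheme of a zero-dimensional complete
intersection which fails to impose independent conditions.
-/

open MvPolynomial

namespace Pool.Agent.Results.MP_47ab85_ag.QuasiPolynomial

/-- Let `K` be algebraically closed and let `F_1, …, F_t` be forms of degrees at most `D` on
`ℙ^c` with only finitely many common zeros (for instance the equations of a zero-dimensional
complete intersection).  Let `Γ` be a subscheme of their common zero scheme, with saturated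
homogeneous ideal `J`, Hilbert function `h` and degree `deg`.  If `Γ` fails to impose independent
conditions on hypersurfaces of degree `m` and `m + 1 ≥ 3 ^ r * D`, then
`deg ≥ 3 ^ (r (r - 1) / 2) * D ^ r * (D + 1)`. -/
theorem result (K : Type*) [Field K] [IsAlgClosed K] (c t D : ℕ) (hD : 1 ≤ D) (d : Fin t → ℕ)
    (F : Fin t → MvPolynomial (Fin (c + 1)) K) (hF : ∀ i, (F i).IsHomogeneous (d i))
    (hd : ∀ i, d i ≤ D)
    (hfin : ∀ j, Set.Finite {x : Fin (c + 1) → K | x j = 1 ∧ ∀ i, eval x (F i) = 0})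
    (J : Ideal (MvPolynomial (Fin (c + 1)) K)) (hJ : ∀ f ∈ J, ∀ k, homogeneousComponent k f ∈ J)
    (hsat : ∀ f : MvPolynomial (Fin (c + 1)) K, (∃ N : ℕ, ∀ i, X i ^ N * f ∈ J) → f ∈ J)
    (hFJ : ∀ i, F i ∈ J) (h : ℕ → ℕ)
    (hh : ∀ k, h k = Module.finrank K (homogeneousSubmodule (Fin (c + 1)) K k) -
      Module.finrank K
        ↥(Submodule.restrictScalars K J ⊓ homogeneousSubmodule (Fin (c + 1)) K k))
    (deg : ℕ) (hdeg : ∃ N, ∀ k ≥ N, h k = deg) (m r : ℕ) (hm : h m < deg)
    (hr : 3 ^ r * D ≤ m + 1) :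
    3 ^ (r * (r - 1) / 2) * D ^ r * (D + 1) ≤ deg := by
  classical
  have : Infinite K := IsAlgClosed.instInfinite
  obtain ⟨N, hN⟩ := hdeg
  have hAA : ∀ k, Module.finrank K (TH130CI.AA J k) = h k := by
    intro k
    have h1 := TH130CI.finrank_AA (I := J) k
    rw [hh k]
    change _ = _ - Module.finrank K (H503R3.QCI.gr J k)
    omega
  let Z : Finset (Fin (c + 1) → K) := Finset.univ.biUnion fun j => (hfin j).toFinset
  have hZ : ∀ z ∈ Z, z ≠ 0 := by
    rintro z hz rfl
    obtain ⟨j, _, hj⟩ := Finset.mem_biUnion.mp hz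
    rw [Set.Finite.mem_toFinset] at hj
    exact zero_ne_one hj.1
  obtain ⟨q, hq, hqZ⟩ := TH130CI.exists_lin_nzd_avoid (J := J)
    (fun f hf => hsat f ⟨1, fun i => by rw [pow_one]; exact hf i⟩) Z hZ
  set ℓ := TH130CI.linL K (c + 1) q with hℓ
  have hℓ1 : ℓ.IsHomogeneous 1 := TH130CI.linL_homog q
  rw [← Nat.choose_two_right]
  refine TH130CI.deg_bound hJ hℓ1 hq hD (G := Set.range F) ?_ ?_ (N := N) (m := m) ?_ ?_ hr
  · rintro _ ⟨i, rfl⟩
    exact ⟨hFJ i, d i, hd i, hF i⟩
  · intro j
    have h1 : (X j : MvPolynomial (Fin (c + 1)) K) ∈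
        (Ideal.span (Set.range F) ⊔ Ideal.span {ℓ}).radical := by
      rw [← vanishingIdeal_zeroLocus_eq_radical (K := K)]
      intro x hx
      rw [aeval_X]
      by_contra hxj
      have hx1 : ∀ p ∈ Ideal.span (Set.range F) ⊔ Ideal.span {ℓ}, eval x p = 0 := hx
      -- scale so that the `j`-th coordinate is one
      set y : Fin (c + 1) → K := (x j)⁻¹ • x with hy
      have hsc : ∀ (p : MvPolynomial (Fin (c + 1)) K) (e : ℕ), p.IsHomogeneous e →
          eval x p = 0 → eval y p = 0 := by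
        intro p e hp hp0
        rw [hy, TH130CI.eval_smul_homog hp, hp0, mul_zero]
      have hyZ : y ∈ Z := by
        apply Finset.mem_biUnion.mpr
        refine ⟨j, Finset.mem_univ j, ?_⟩
        rw [Set.Finite.mem_toFinset]
        refine ⟨?_, fun i => hsc _ _ (hF i) (hx1 _ (Ideal.mem_sup_left
          (Ideal.subset_span ⟨i, rfl⟩)))⟩
        rw [hy, Pi.smul_apply, smul_eq_mul, inv_mul_cancel₀ hxj]
      exact hqZ y hyZ (hsc _ _ hℓ1 (hx1 _ (Ideal.mem_sup_right (Ideal.mem_span_singleton_self _))))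
    obtain ⟨M, hM⟩ := h1
    exact ⟨M, hM⟩
  · intro k hk
    rw [hAA]
    exact hN k hk
  · rw [hAA]
    exact hm

end Pool.Agent.Results.MP_47ab85_ag.QuasiPolynomial
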